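import Pool.Agent.Q175.SG.Main

/-!
A solution of `-Δu = λ c u + |∇u|² + h` in the unit disc with `λ = -1 < γ₁` which is negative at the
origin, although the problem with `λ = 0` has a solution `u₀ ≥ 0` with `c u₀ ≥ 0`, `≢ 0`.

Both solutions are radial: `u = U(|x|²)` and `u₀ = u + log R(|x|²)`, where `R' = -θ e^{-2U} / s` with
a smooth step `θ` which increases only where `U = 1`; then `c = 4 θ' e^{-2} / R ≥ 0`.
The definitions `IsSolution`, `gamma1` are in `Pool.Agent.Q175.SG.Main`, the class `H^1_0` (`IsH10`) is in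
`Pool.Agent.Q175.WS.Basic`.
-/

namespace Pool.Agent.Results.MP_ac8703_an.NegativeSolution

open MeasureTheory Set
open scoped ContDiff
open Pool.Agent.Q175.SG

/-- There are smooth `c ≥ 0` and `h`, a solution `u₀ ≥ 0` of `(P₀)` in the unit disc (with `μ = 1`)
such that `c u₀` is positive on a set of positive measure, a real number `λ < γ₁` and a
continuous solution `u` of `(P_λ)` with `u(x) < 0` for some `x` in the disc. -/
theorem result : ∃ (c h u₀ u : E2 → ℝ) (G₀ G : E2 → E2) (lam : ℝ),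
    ContDiff ℝ ∞ c ∧ ContDiff ℝ ∞ h ∧ (∀ x, 0 ≤ c x) ∧
      IsSolution (Metric.ball 0 1) 0 c (fun _ => 1) h u₀ G₀ ∧ (∀ x, 0 ≤ u₀ x) ∧
      0 < volume {x | x ∈ Metric.ball 0 1 ∧ 0 < c x * u₀ x} ∧
      lam < gamma1 (Metric.ball 0 1) c ∧
      IsSolution (Metric.ball 0 1) lam c (fun _ => 1) h u G ∧ Continuous u ∧
      ∃ x ∈ Metric.ball (0 : E2) 1, u x < 0 := by
  refine ⟨cc, hh, u0, uu, G0, gradient uu, -1, cc_smooth, hh_smooth, fun x => cs_nonneg _,
    sol_u0, u0_nonneg, cu0_pos, gamma_nonneg, sol_u, uu_smooth.continuous, 0, by simp, ?_⟩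
  change U (‖(0 : E2)‖ ^ 2) < 0
  rw [norm_zero, zero_pow two_ne_zero, U_center]
  norm_num

end Pool.Agent.Results.MP_ac8703_an.NegativeSolution
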